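import Pool.Agent.Helper5.SX.St

set_option autoImplicit false

/-! Project SX, module CLB: a critical colour is forbidden outside the neighbourhood of the mark. -/

namespace Pool.Agent.Helper95.SX

open _root_.SX
open Finset
open scoped Classical

theorem hCLB : StCYC → StBFA → StBFB → StCZ → StROT → StUNF → StCLB := by
  intro CYC BFA BFB CZ ROT UNF V _ A c y l t0 t1 C L fr m hm v hv z hz hzv huniq B hB hzC x hxC hxN
  by_contra hn
  have hne : x ≠ z := by
    rintro rfl
    exact hxN hz
  have comp := fr.comp B hB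
  have mx := fr.st.mx
  obtain ⟨π, hπ, hmov⟩ := CYC V (Arc A c y l) (C B) x z hxC hzC hne hn (comp.conn z hzC x hxC)
  have hRb : ∀ w ∈ C B, w ∈ Rb A c y l B := by
    intro w hw
    exact (mem_filter.1 (comp.sub hw)).1
  have hbB : ∀ w ∈ C B, A.b w = B := by
    intro w hw
    exact (mem_filter.1 (hRb w hw)).2.1
  obtain ⟨mx', hMk, hK, hS⟩ := ROT V A c y l π B mx
    (fun w hw => ⟨hRb _ (hmov w hw).1, hRb _ (hmov w hw).2.1, (hmov w hw).2.2⟩)
  obtain ⟨hmK, hmM⟩ := mem_filter.1 hm
  obtain ⟨-, hvb, hvK⟩ := mem_filter.1 hv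
  have hvm : π v = v := by
    by_contra h
    have h1 := hbB v (hmov v h).1
    have h2 := hbB z hzC
    exact A.out m z hz (by rw [h2, ← h1, hvb])
  obtain ⟨hu1, hu2, hu3, hu4, hu5⟩ := (UNF V A c y l mx m hm).1 v hv
  have hl := (CZ V A c y l mx).1
  have hAv : Av A (fun v => c (π v)) v := by
    right
    refine ⟨by simpa only [hvm] using hu4, ?_⟩
    intro m' hm' hb' z' hz' hc'
    exfalso
    rw [hMk] at hm'
    have hmm : m' = m := (BFA V A c y l mx.st).1 m' hm' m hmM (by rw [hb', hvb])
    subst hmm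
    simp only [hvm] at hc'
    by_cases hp : π z' = z'
    · rw [hp] at hc'
      have h1 := huniq z' hz' hc'
      subst h1
      apply hne
      apply π.injective
      rw [hπ, hp]
    · have h1 := (hmov z' hp).2.1
      have h2 : π z' = z := by
        apply mx.st.base.lab.inj
        · rw [hbB _ h1, hbB z hzC]
        · rw [hc', hzv]
      have h3 : z' = x := by
        apply π.injective
        rw [h2, hπ]
      exact hxN (h3 ▸ hz')
  obtain ⟨w, hw1, hw2⟩ := (CZ V A _ y l mx').2 v (by
    rw [hS, hvb]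
    exact (BFB V A c y l mx.st hl).2.1 m hmK) hAv
  rw [hK] at hw2
  exact hvK w hw1 hw2

end Pool.Agent.Helper95.SX
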